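import Pool.Agent.H34.FS.Targets

set_option autoImplicit false

open Finset Pool.Agent.H32.RQ Pool.Agent.H34.FQ

namespace Pool.Agent.H36.HFS

open Pool.Agent.H34.FS

private theorem map_qf {R S : Type} [CommRing R] [CommRing S] (φ : R →+* S) {s : ℕ}
    (f : Mon s → R) (x : Fin s → R) : φ (qf f x) = qf (fun p => φ (f p)) (fun j => φ (x j)) := by
  unfold qf
  rw [map_sum]
  refine Finset.sum_congr rfl fun p _ => ?_
  rw [map_mul, map_mul]

private theorem map_dq {R S : Type} [CommRing R] [CommRing S] (φ : R →+* S) {s : ℕ}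
    (f : Mon s → R) (x : Fin s → R) (j : Fin s) :
    φ (dq f x j) = dq (fun p => φ (f p)) (fun j => φ (x j)) j := by
  unfold dq
  rw [map_sum]
  refine Finset.sum_congr rfl fun p _ => ?_
  rw [map_mul, map_add]
  split_ifs <;> simp

private theorem map_jm {R S : Type} [CommRing R] [CommRing S] (φ : R →+* S) {s : ℕ}
    (F : Fin 2 → Mon s → R) (x : Fin s → R) (a b : Fin s) :
    φ (jm F x a b) = jm (fun i p => φ (F i p)) (fun j => φ (x j)) a b := by
  unfold jm
  rw [map_sub, map_mul, map_mul, map_dq, map_dq, map_dq, map_dq]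

/-- the generators of the ideal of the singular points -/
private noncomputable def gens {r : ℕ} (F : Fin 2 → Mon r → ℤ) :
    Fin 2 ⊕ (Fin r × Fin r) → MvPolynomial (Fin r) ℚ
  | Sum.inl i => qf (cm (MvPolynomial (Fin r) ℚ) F i) MvPolynomial.X
  | Sum.inr q => jm (cm (MvPolynomial (Fin r) ℚ) F) MvPolynomial.X q.1 q.2

private theorem cm_map {R S : Type} [CommRing R] [CommRing S] (φ : R →+* S) {s : ℕ}
    (F : Fin 2 → Mon s → ℤ) (i : Fin 2) : (fun p => φ (cm R F i p)) = cm S F i := by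
  ext p
  exact map_intCast φ _

private theorem denom {r : ℕ} (f : MvPolynomial (Fin r) ℚ) : ∃ m : ℕ, 1 ≤ m ∧
    ∀ x : Fin r → ℤ, ∃ z : ℤ, (m : ℚ) * MvPolynomial.eval (fun j => (x j : ℚ)) f = z := by
  induction f using MvPolynomial.induction_on with
  | C q =>
    refine ⟨q.den, q.den_pos, fun x => ⟨q.num, ?_⟩⟩
    rw [MvPolynomial.eval_C, mul_comm]
    exact Rat.mul_den_eq_num q
  | add f g hf hg =>
    obtain ⟨m, hm, h1⟩ := hf
    obtain ⟨m', hm', h2⟩ := hg
    refine ⟨m * m', Nat.mul_pos hm hm', fun x => ?_⟩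
    obtain ⟨z, hz⟩ := h1 x
    obtain ⟨z', hz'⟩ := h2 x
    refine ⟨m' * z + m * z', ?_⟩
    rw [map_add]
    push_cast
    rw [← hz, ← hz']
    ring
  | mul_X f i hf =>
    obtain ⟨m, hm, h1⟩ := hf
    refine ⟨m, hm, fun x => ?_⟩
    obtain ⟨z, hz⟩ := h1 x
    refine ⟨z * x i, ?_⟩
    rw [map_mul, MvPolynomial.eval_X]
    push_cast
    rw [← hz]
    ring

private theorem span_denom {r : ℕ} (F : Fin 2 → Mon r → ℤ) (f : MvPolynomial (Fin r) ℚ)
    (hf : f ∈ Ideal.span (Set.range (gens F))) : ∃ m : ℕ, 1 ≤ m ∧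
    ∀ (x : Fin r → ℤ) (d : ℤ), (∀ i, d ∣ qf (F i) x) → (∀ a b, d ∣ jm F x a b) →
      ∃ z : ℤ, (m : ℚ) * MvPolynomial.eval (fun j => (x j : ℚ)) f = d * z := by
  induction hf using Submodule.span_induction with
  | mem f hf =>
    obtain ⟨g, rfl⟩ := hf
    refine ⟨1, le_refl 1, fun x d h1 h2 => ?_⟩
    have hX : (fun j => MvPolynomial.eval (fun j => (x j : ℚ)) (MvPolynomial.X j)) =
        fun j => (x j : ℚ) := by
      ext j
      rw [MvPolynomial.eval_X]
    match g with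
    | Sum.inl i =>
      obtain ⟨z, hz⟩ := h1 i
      refine ⟨z, ?_⟩
      have h3 := map_qf (Int.castRingHom ℚ) (F i) x
      have h4 := map_qf (MvPolynomial.eval (fun j => (x j : ℚ)))
        (cm (MvPolynomial (Fin r) ℚ) F i) MvPolynomial.X
      rw [cm_map, hX] at h4
      change ((1 : ℕ) : ℚ) * MvPolynomial.eval (fun j => (x j : ℚ))
        (qf (cm (MvPolynomial (Fin r) ℚ) F i) MvPolynomial.X) = _
      rw [h4, Nat.cast_one, one_mul, ← Int.cast_mul, ← hz]
      exact h3.symm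
    | Sum.inr q =>
      obtain ⟨z, hz⟩ := h2 q.1 q.2
      refine ⟨z, ?_⟩
      have h3 := map_jm (Int.castRingHom ℚ) F x q.1 q.2
      have h4 := map_jm (MvPolynomial.eval (fun j => (x j : ℚ)))
        (cm (MvPolynomial (Fin r) ℚ) F) MvPolynomial.X q.1 q.2
      have h5 : (fun i p => MvPolynomial.eval (fun j => (x j : ℚ))
          (cm (MvPolynomial (Fin r) ℚ) F i p)) = cm ℚ F := by
        ext i p
        exact map_intCast _ _
      rw [h5, hX] at h4
      change ((1 : ℕ) : ℚ) * MvPolynomial.eval (fun j => (x j : ℚ))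
        (jm (cm (MvPolynomial (Fin r) ℚ) F) MvPolynomial.X q.1 q.2) = _
      rw [h4, Nat.cast_one, one_mul, ← Int.cast_mul, ← hz]
      exact h3.symm
  | zero =>
    refine ⟨1, le_refl 1, fun x d _ _ => ⟨0, ?_⟩⟩
    rw [map_zero, mul_zero, Int.cast_zero, mul_zero]
  | add f g _ _ hf hg =>
    obtain ⟨m, hm, h1⟩ := hf
    obtain ⟨m', hm', h2⟩ := hg
    refine ⟨m * m', Nat.mul_pos hm hm', fun x d hd hd' => ?_⟩
    obtain ⟨z, hz⟩ := h1 x d hd hd'
    obtain ⟨z', hz'⟩ := h2 x d hd hd'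
    refine ⟨m' * z + m * z', ?_⟩
    rw [map_add]
    push_cast
    linear_combination (m' : ℚ) * hz + (m : ℚ) * hz'
  | smul a f _ hf =>
    obtain ⟨m, hm, h1⟩ := hf
    obtain ⟨m', hm', h2⟩ := denom a
    refine ⟨m' * m, Nat.mul_pos hm' hm, fun x d hd hd' => ?_⟩
    obtain ⟨z, hz⟩ := h1 x d hd hd'
    obtain ⟨z', hz'⟩ := h2 x
    refine ⟨z' * z, ?_⟩
    rw [smul_eq_mul, map_mul]
    push_cast
    rw [← hz']
    linear_combination (m' : ℚ) * MvPolynomial.eval (fun j => (x j : ℚ)) a * hz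

private theorem not_li {K : Type} [Field K] {r : ℕ} (u v : Fin r → K)
    (h : ∀ a b, u a * v b - u b * v a = 0) : ¬ LinearIndependent K ![u, v] := by
  intro hli
  rw [LinearIndependent.pair_iff] at hli
  by_cases hu : u = 0
  · have := (hli 1 0 (by rw [hu, smul_zero, zero_smul, add_zero])).1
    exact one_ne_zero this
  · obtain ⟨a, ha⟩ := Function.ne_iff.1 hu
    have h1 := (hli (v a) (-u a) (by
      ext b
      rw [Pi.add_apply, Pi.smul_apply, Pi.smul_apply, smul_eq_mul, smul_eq_mul, Pi.zero_apply]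
      linear_combination -h a b)).2
    exact ha (neg_eq_zero.1 h1)

private theorem X_mem {r : ℕ} (F : Fin 2 → Mon r → ℤ) (hS : Sm F) (i : Fin r) :
    ∃ n : ℕ, (MvPolynomial.X i : MvPolynomial (Fin r) ℚ) ^ n ∈
      Ideal.span (Set.range (gens F)) := by
  have h1 : (MvPolynomial.X i : MvPolynomial (Fin r) ℚ) ∈
      (Ideal.span (Set.range (gens F))).radical := by
    rw [← MvPolynomial.vanishingIdeal_zeroLocus_eq_radical (K := AlgebraicClosure ℚ),
      MvPolynomial.mem_vanishingIdeal_iff]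
    intro x hx
    rw [MvPolynomial.aeval_X]
    have hx0 : x = 0 := by
      by_contra hne
      have hg : ∀ g, MvPolynomial.aeval x (gens F g) = 0 := fun g =>
        hx _ (Ideal.subset_span ⟨g, rfl⟩)
      have hX : (fun j => (MvPolynomial.aeval x : MvPolynomial (Fin r) ℚ →ₐ[ℚ]
          AlgebraicClosure ℚ).toRingHom (MvPolynomial.X j)) = x := by
        ext j
        exact MvPolynomial.aeval_X x j
      refine not_li _ _ (fun a b => ?_) (hS x hne fun k => ?_)
      · have h3 := hg (Sum.inr (a, b))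
        have h4 := map_jm (MvPolynomial.aeval x : MvPolynomial (Fin r) ℚ →ₐ[ℚ]
          AlgebraicClosure ℚ).toRingHom (cm (MvPolynomial (Fin r) ℚ) F) MvPolynomial.X a b
        have h5 : (fun i p => (MvPolynomial.aeval x : MvPolynomial (Fin r) ℚ →ₐ[ℚ]
            AlgebraicClosure ℚ).toRingHom (cm (MvPolynomial (Fin r) ℚ) F i p)) =
            cm (AlgebraicClosure ℚ) F := by
          ext i p
          exact map_intCast _ _
        rw [h5, hX] at h4
        exact h4.symm.trans h3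
      · have h3 := hg (Sum.inl k)
        have h4 := map_qf (MvPolynomial.aeval x : MvPolynomial (Fin r) ℚ →ₐ[ℚ]
          AlgebraicClosure ℚ).toRingHom (cm (MvPolynomial (Fin r) ℚ) F k) MvPolynomial.X
        rw [cm_map, hX] at h4
        exact h4.symm.trans h3
    rw [hx0]
    rfl
  exact h1

theorem pf_NUL : T_NUL := by
  intro r F hS
  have key : ∀ i : Fin r, ∃ m n : ℕ, 1 ≤ m ∧ ∀ (x : Fin r → ℤ) (d : ℤ),
      (∀ i, d ∣ qf (F i) x) → (∀ a b, d ∣ jm F x a b) → d ∣ m * x i ^ n := by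
    intro i
    obtain ⟨n, hn⟩ := X_mem F hS i
    obtain ⟨m, hm, h1⟩ := span_denom F _ hn
    refine ⟨m, n, hm, fun x d hd hd' => ?_⟩
    obtain ⟨z, hz⟩ := h1 x d hd hd'
    refine ⟨z, ?_⟩
    rw [map_pow, MvPolynomial.eval_X] at hz
    exact_mod_cast hz
  choose m n hm h1 using key
  refine ⟨∏ i, m i, Finset.one_le_prod' fun i _ => hm i, fun p k x hp ⟨i, hi⟩ hq hj => ?_⟩
  have h2 := h1 i x ((p : ℤ) ^ k) hq hj
  have h3 : IsCoprime ((p : ℤ) ^ k) (x i ^ n i) := by
    refine IsCoprime.pow ?_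
    exact (Prime.coprime_iff_not_dvd (Nat.prime_iff_prime_int.1 hp)).2 hi
  have h4 := h3.dvd_of_dvd_mul_right h2
  have h5 : p ^ k ∣ m i := by exact_mod_cast h4
  exact h5.trans (Finset.dvd_prod_of_mem m (Finset.mem_univ i))

end Pool.Agent.H36.HFS
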