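import Pool.Agent.H34.FS.Targets

set_option autoImplicit false

open Finset Pool.Agent.H32.RQ Pool.Agent.H34.FQ

namespace Pool.Agent.H36.HFS

open Pool.Agent.H34.FS

private theorem quad_root {K : Type} [Field K] [IsAlgClosed K] (a b c : K) (ha : a ≠ 0) :
    ∃ t : K, a * t ^ 2 + b * t + c = 0 := by
  obtain ⟨t, ht⟩ := IsAlgClosed.exists_root
    (Polynomial.C a * Polynomial.X ^ 2 + Polynomial.C b * Polynomial.X + Polynomial.C c)
    (by rw [Polynomial.degree_quadratic ha]; norm_num)
  refine ⟨t, ?_⟩
  rw [Polynomial.IsRoot.def] at ht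
  simpa using ht

private theorem col_det {K : Type} [Field K] {s : ℕ} (M H : Matrix (Fin s) (Fin s) K)
    (hX : (Polynomial.X : Polynomial K) ^ 2 ∣
      ((Polynomial.X : Polynomial K) • H.map Polynomial.C + M.map Polynomial.C).det)
    (v : Fin s → K) (hv : M.mulVec v = 0) (i : Fin s) :
    (M.updateCol i (H.mulVec v)).det = 0 := by
  set A : Matrix (Fin s) (Fin s) (Polynomial K) :=
    (Polynomial.X : Polynomial K) • H.map Polynomial.C + M.map Polynomial.C with hA
  have h1 : A.mulVec (fun j => Polynomial.C (v j)) =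
      (Polynomial.X : Polynomial K) • fun j => Polynomial.C (H.mulVec v j) := by
    have e1 : (H.map Polynomial.C).mulVec (fun j => Polynomial.C (v j)) =
        fun j => Polynomial.C (H.mulVec v j) := by
      ext1 j
      exact (RingHom.map_mulVec Polynomial.C H v j).symm
    have e2 : (M.map Polynomial.C).mulVec (fun j => Polynomial.C (v j)) = 0 := by
      ext1 j
      have := (RingHom.map_mulVec Polynomial.C M v j).symm
      rw [hv] at this
      rw [Pi.zero_apply]
      refine Eq.trans this ?_
      rw [Pi.zero_apply, map_zero]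
    rw [hA, Matrix.add_mulVec, Matrix.smul_mulVec, e1, e2, add_zero]
  have h2 : (A.updateCol i (A.mulVec (fun j => Polynomial.C (v j)))).det =
      A.det * Polynomial.C (v i) := by
    rw [← Matrix.cramer_apply, Matrix.cramer_eq_adjugate_mulVec, Matrix.mulVec_mulVec,
      Matrix.adjugate_mul, Matrix.smul_mulVec, Matrix.one_mulVec]
    rfl
  rw [h1, Matrix.det_updateCol_smul] at h2
  obtain ⟨B, hB⟩ := hX
  rw [hB] at h2
  have h3 : (A.updateCol i fun j => Polynomial.C (H.mulVec v j)).det =
      Polynomial.X * (B * Polynomial.C (v i)) := by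
    have h4 : (Polynomial.X : Polynomial K) ≠ 0 := Polynomial.X_ne_zero
    apply mul_left_cancel₀ h4
    rw [h2]
    ring
  have h5 := congrArg (Polynomial.eval 0) h3
  rw [Polynomial.eval_mul, Polynomial.eval_X, zero_mul] at h5
  rw [← h5]
  change _ = Polynomial.evalRingHom 0 _
  rw [RingHom.map_det]
  congr 1
  ext a b
  rw [RingHom.mapMatrix_apply, Matrix.map_apply, Matrix.updateCol_apply, Matrix.updateCol_apply]
  by_cases hb : b = i
  · rw [if_pos hb, if_pos hb]
    simp
  · rw [if_neg hb, if_neg hb, hA]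
    simp

theorem pf_SQR : T_SQR := by
  intro K _ _ s M H hM hH hX
  have h0 : M.det = 0 := by
    obtain ⟨B, hB⟩ := hX
    have h1 := congrArg (Polynomial.evalRingHom 0) hB
    rw [RingHom.map_det] at h1
    have h2 : (Polynomial.evalRingHom (0 : K)).mapMatrix
        ((Polynomial.X : Polynomial K) • H.map Polynomial.C + M.map Polynomial.C) = M := by
      ext a b
      simp
    rw [h2] at h1
    rw [h1]
    simp
  obtain ⟨v, hv0, hv⟩ := Matrix.exists_mulVec_eq_zero_iff.2 h0
  obtain ⟨i, hi⟩ := Function.ne_iff.1 hv0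
  rw [Pi.zero_apply] at hi
  have hvM : ∀ a, ∑ j, M a j * v j = 0 := fun a => congrFun hv a
  by_cases ha : ∑ a, ∑ b, v a * H a b * v b = 0
  · exact ⟨v, hv0, hvM, ha⟩
  obtain ⟨y, hy0, hy⟩ := Matrix.exists_mulVec_eq_zero_iff.2 (col_det M H hX v hv i)
  have hrow : ∀ a, ∑ j, M a j * y j + y i * (∑ b, H a b * v b - M a i) = 0 := by
    intro a
    have h1 : ∑ j, (M.updateCol i (H.mulVec v)) a j * y j = 0 := congrFun hy a
    rw [← Finset.add_sum_erase _ _ (Finset.mem_univ i), Matrix.updateCol_self] at h1
    rw [← Finset.add_sum_erase _ _ (Finset.mem_univ i)]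
    have h2 : ∑ j ∈ Finset.univ.erase i, (M.updateCol i (H.mulVec v)) a j * y j =
        ∑ j ∈ Finset.univ.erase i, M a j * y j := by
      refine Finset.sum_congr rfl fun j hj => ?_
      rw [Matrix.updateCol_ne (Finset.ne_of_mem_erase hj)]
    rw [h2] at h1
    have h3 : H.mulVec v a = ∑ b, H a b * v b := rfl
    rw [h3] at h1
    linear_combination h1
  have hsym : ∀ w : Fin s → K, ∑ a, v a * ∑ j, M a j * w j = 0 := by
    intro w
    have h1 : ∑ a, v a * ∑ j, M a j * w j = ∑ j, w j * ∑ a, M j a * v a := by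
      simp only [Finset.mul_sum]
      rw [Finset.sum_comm]
      refine Finset.sum_congr rfl fun j _ => Finset.sum_congr rfl fun a _ => ?_
      rw [hM a j]
      ring
    rw [h1]
    exact Finset.sum_eq_zero fun j _ => by rw [hvM, mul_zero]
  have hyi : y i = 0 := by
    have h1 : ∑ a, v a * (∑ j, M a j * y j + y i * (∑ b, H a b * v b - M a i)) = 0 :=
      Finset.sum_eq_zero fun a _ => by rw [hrow, mul_zero]
    have h2 : ∑ a, v a * (∑ j, M a j * y j + y i * (∑ b, H a b * v b - M a i)) =
        ∑ a, v a * ∑ j, M a j * y j + y i * (∑ a, v a * ∑ b, H a b * v b) -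
        y i * ∑ a, v a * M a i := by
      rw [Finset.mul_sum, Finset.mul_sum, ← Finset.sum_add_distrib, ← Finset.sum_sub_distrib]
      refine Finset.sum_congr rfl fun a _ => ?_
      ring
    have h3 : ∑ a, v a * M a i = 0 := by
      rw [← hvM i]
      refine Finset.sum_congr rfl fun a _ => ?_
      rw [hM a i, mul_comm]
    have h4 : ∑ a, v a * ∑ b, H a b * v b = ∑ a, ∑ b, v a * H a b * v b := by
      refine Finset.sum_congr rfl fun a _ => ?_
      rw [Finset.mul_sum]
      exact Finset.sum_congr rfl fun b _ => by ring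
    rw [h2, hsym, h3, mul_zero, sub_zero, zero_add, h4] at h1
    exact (mul_eq_zero.1 h1).resolve_right ha
  have hyM : ∀ a, ∑ j, M a j * y j = 0 := by
    intro a
    have h1 := hrow a
    rw [hyi, zero_mul, add_zero] at h1
    exact h1
  obtain ⟨t, ht⟩ := quad_root (∑ a, ∑ b, v a * H a b * v b)
    (∑ a, ∑ b, (v a * H a b * y b + y a * H a b * v b)) (∑ a, ∑ b, y a * H a b * y b) ha
  refine ⟨fun j => t * v j + y j, ?_, ?_, ?_⟩
  · intro h1
    have h2 := congrFun h1 i
    change t * v i + y i = 0 at h2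
    rw [hyi, add_zero] at h2
    have h3 : t = 0 := (mul_eq_zero.1 h2).resolve_right hi
    apply hy0
    ext j
    have h4 := congrFun h1 j
    change t * v j + y j = 0 at h4
    rw [h3, zero_mul, zero_add] at h4
    exact h4
  · intro a
    have h1 : ∑ j, M a j * (t * v j + y j) = t * ∑ j, M a j * v j + ∑ j, M a j * y j := by
      rw [Finset.mul_sum, ← Finset.sum_add_distrib]
      exact Finset.sum_congr rfl fun j _ => by ring
    rw [h1, hvM, hyM, mul_zero, add_zero]
  · rw [← ht, Finset.sum_mul, Finset.sum_mul, ← Finset.sum_add_distrib,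
      ← Finset.sum_add_distrib]
    refine Finset.sum_congr rfl fun a _ => ?_
    rw [Finset.sum_mul, Finset.sum_mul, ← Finset.sum_add_distrib, ← Finset.sum_add_distrib]
    exact Finset.sum_congr rfl fun b _ => by ring

end Pool.Agent.H36.HFS
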